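import Pool.Agent.H611D.Sums

/-!
# Chains whose smaller chains double below them: structure of a counterexample
-/

set_option autoImplicit false

open Set

namespace H611D

/-- `X` lies strictly below `A` -/
def Lt (X A : Type) [LinearOrder X] [LinearOrder A] : Prop := Le X A ∧ ¬ Le A X

theorem lt_iff (X A : Type) [LinearOrder X] [LinearOrder A] :
    Lt X A ↔ (Nonempty (X ↪o A) ∧ IsEmpty (A ↪o X)) := by
  rw [Lt, le_iff, le_iff, not_nonempty_iff]

theorem Le.refl' (X : Type) [LinearOrder X] : Le X X := ⟨id, strictMono_id⟩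

theorem le_of_isEmpty (X Y : Type) [LinearOrder X] [LinearOrder Y] (h : IsEmpty X) : Le X Y :=
  ⟨fun x => (h.false x).elim, fun x => (h.false x).elim⟩

/-- the structure of a counterexample -/
structure Bad (A B C : Type) [LinearOrder A] [LinearOrder B] [LinearOrder C] : Prop where
  notBC : ¬ Le B C
  notCB : ¬ Le C B
  BB : Le (Lex (B ⊕ B)) B
  CC : Le (Lex (C ⊕ C)) C
  cone : ∀ (X : Type) [LinearOrder X], Lt X B ↔ Lt X C
  cover : ∀ (X : Type) [LinearOrder X], Lt X A → Le X B ∨ Le X C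
  sums : ∀ (I : Type) [LinearOrder I] [Countable I] (X : I → Type) [∀ i, LinearOrder (X i)],
    (∀ i, Lt (X i) B) → Lt (Σₗ i, X i) B
  rat : Le ℚ A
  unc : Uncountable A

theorem main (A : Type) [LinearOrder A]
    (hA : ∀ (X : Type) [LinearOrder X], Lt X A → Lt (Lex (X ⊕ X)) A)
    (B C : Type) [LinearOrder B] [LinearOrder C] (e : A ≃o Lex (B ⊕ C))
    (hAB : ¬ Le A B) (hAC : ¬ Le A C) : Bad A B C := by
  have hA1 : Le A (Lex (B ⊕ C)) := ⟨e, e.strictMono⟩
  have hA2 : Le (Lex (B ⊕ C)) A := ⟨e.symm, e.symm.strictMono⟩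
  have hB : Lt B A := ⟨le_inl.trans hA2, hAB⟩
  have hC : Lt C A := ⟨le_inr.trans hA2, hAC⟩
  have hBB := hA B hB
  have hCC := hA C hC
  have notBC : ¬ Le B C := fun h => hCC.2 (hA1.trans (le_sum h (Le.refl' C)))
  have notCB : ¬ Le C B := fun h => hBB.2 (hA1.trans (le_sum (Le.refl' B) h))
  have cover : ∀ (X : Type) [LinearOrder X], Lt X A → Le X B ∨ Le X C := fun X _ hX =>
    split ((hA X hX).1.trans hA1)
  have BB : Le (Lex (B ⊕ B)) B := by
    rcases cover _ hBB with h | h
    · exact h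
    · exact absurd (le_inl.trans h) notBC
  have CC : Le (Lex (C ⊕ C)) C := by
    rcases cover _ hCC with h | h
    · exact absurd (le_inl.trans h) notCB
    · exact h
  have hneB : Nonempty B := by
    by_contra h
    exact notBC (le_of_isEmpty B C (not_nonempty_iff.1 h))
  have hneC : Nonempty C := by
    by_contra h
    exact notCB (le_of_isEmpty C B (not_nonempty_iff.1 h))
  have ltBC : ∀ (X : Type) [LinearOrder X], Lt X B → Le X C := by
    intro X _ hX
    have hZ1 : Le (Lex (X ⊕ C)) A := (le_sum hX.1 (Le.refl' C)).trans hA2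
    have hZ2 : ¬ Le A (Lex (X ⊕ C)) := by
      intro h
      have h1 : Le (Lex (B ⊕ C)) (Lex (X ⊕ C)) := hA2.trans h
      have h2 : Le (Lex (B ⊕ B)) (Lex (X ⊕ C)) := BB.trans (le_inl.trans h1)
      rcases split h2 with h3 | h3
      · exact hX.2 h3
      · exact notBC h3
    rcases cover _ ⟨hZ1, hZ2⟩ with h | h
    · exact absurd (le_inr.trans h) notCB
    · exact le_inl.trans h
  have ltCB : ∀ (X : Type) [LinearOrder X], Lt X C → Le X B := by
    intro X _ hX
    have hZ1 : Le (Lex (B ⊕ X)) A := (le_sum (Le.refl' B) hX.1).trans hA2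
    have hZ2 : ¬ Le A (Lex (B ⊕ X)) := by
      intro h
      have h1 : Le (Lex (B ⊕ C)) (Lex (B ⊕ X)) := hA2.trans h
      have h2 : Le (Lex (C ⊕ C)) (Lex (B ⊕ X)) := CC.trans (le_inr.trans h1)
      rcases split h2 with h3 | h3
      · exact notCB h3
      · exact hX.2 h3
    rcases cover _ ⟨hZ1, hZ2⟩ with h | h
    · exact le_inr.trans h
    · exact absurd (le_inl.trans h) notBC
  have cone : ∀ (X : Type) [LinearOrder X], Lt X B ↔ Lt X C := fun X _ =>
    ⟨fun h => ⟨ltBC X h, fun h' => notCB (h'.trans h.1)⟩,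
      fun h => ⟨ltCB X h, fun h' => notBC (h'.trans h.1)⟩⟩
  have sums : ∀ (I : Type) [LinearOrder I] [Countable I] (X : I → Type) [∀ i, LinearOrder (X i)],
      (∀ i, Lt (X i) B) → Lt (Σₗ i, X i) B := by
    intro I _ _ X _ hX
    exact ⟨sum_le hneB BB I X fun i => (hX i).1,
      fun h => notBC (h.trans (sum_le hneC CC I X fun i => ltBC (X i) (hX i)))⟩
  have hrat : Le ℚ B := rat_le hneB BB
  refine ⟨notBC, notCB, BB, CC, cone, cover, sums, hrat.trans hB.1, ?_⟩
  rw [← not_countable_iff]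
  intro hc
  obtain ⟨fB, hfB⟩ := hB.1
  have hcB : Countable B := hfB.injective.countable
  obtain ⟨g⟩ := Order.embedding_from_countable_to_dense B ℚ
  have hBQ : Le B ℚ := ⟨g, g.strictMono⟩
  exact notBC (hBQ.trans (rat_le hneC CC))

end H611D
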