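import Mathlib

/-!
# Chains whose smaller chains double below them
-/

set_option autoImplicit false

open Set

namespace H611D

/-- `X` embeds in `Y` -/
def Le (X Y : Type) [LinearOrder X] [LinearOrder Y] : Prop := ∃ f : X → Y, StrictMono f

theorem le_iff (X Y : Type) [LinearOrder X] [LinearOrder Y] : Le X Y ↔ Nonempty (X ↪o Y) :=
  ⟨fun ⟨f, hf⟩ => ⟨OrderEmbedding.ofStrictMono f hf⟩, fun ⟨e⟩ => ⟨e, e.strictMono⟩⟩

section

variable {X Y Z W : Type} [LinearOrder X] [LinearOrder Y] [LinearOrder Z] [LinearOrder W]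

theorem Le.trans (h : Le X Y) (h' : Le Y Z) : Le X Z := by
  obtain ⟨f, hf⟩ := h
  obtain ⟨g, hg⟩ := h'
  exact ⟨g ∘ f, hg.comp hf⟩

theorem le_inl : Le X (Lex (X ⊕ Y)) :=
  ⟨fun x => toLex (Sum.inl x), fun _ _ h => Sum.Lex.inl_lt_inl_iff.2 h⟩

theorem le_inr : Le Y (Lex (X ⊕ Y)) :=
  ⟨fun x => toLex (Sum.inr x), fun _ _ h => Sum.Lex.inr_lt_inr_iff.2 h⟩

theorem le_sum (h : Le X Z) (h' : Le Y W) : Le (Lex (X ⊕ Y)) (Lex (Z ⊕ W)) := by
  obtain ⟨f, hf⟩ := h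
  obtain ⟨g, hg⟩ := h'
  refine ⟨fun s => toLex (Sum.map f g (ofLex s)), ?_⟩
  intro a b hab
  rcases a with a | a <;> rcases b with b | b
  · exact Sum.Lex.inl_lt_inl_iff.2 (hf (Sum.Lex.inl_lt_inl_iff.1 hab))
  · exact Sum.Lex.inl_lt_inr _ _
  · exact absurd hab Sum.Lex.not_inr_lt_inl
  · exact Sum.Lex.inr_lt_inr_iff.2 (hg (Sum.Lex.inr_lt_inr_iff.1 hab))

/-- an embedding of `X + Y` into `Z + W` maps `X` into `Z` or `Y` into `W` -/
theorem split (h : Le (Lex (X ⊕ Y)) (Lex (Z ⊕ W))) : Le X Z ∨ Le Y W := by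
  obtain ⟨f, hf⟩ := h
  by_cases hx : ∀ x : X, ∃ z : Z, f (toLex (Sum.inl x)) = toLex (Sum.inl z)
  · choose g hg using hx
    left
    refine ⟨g, fun a b hab => ?_⟩
    have h1 : f (toLex (Sum.inl a)) < f (toLex (Sum.inl b)) := hf (Sum.Lex.inl_lt_inl_iff.2 hab)
    rw [hg, hg] at h1
    exact Sum.Lex.inl_lt_inl_iff.1 h1
  · push Not at hx
    obtain ⟨x0, hx0⟩ := hx
    obtain ⟨w0, hw0⟩ : ∃ w : W, f (toLex (Sum.inl x0)) = toLex (Sum.inr w) := by
      rcases h : ofLex (f (toLex (Sum.inl x0))) with z | w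
      · exact absurd (by rw [← h]; rfl) (hx0 z)
      · exact ⟨w, by rw [← h]; rfl⟩
    right
    have hy : ∀ y : Y, ∃ w : W, f (toLex (Sum.inr y)) = toLex (Sum.inr w) := by
      intro y
      have h1 : f (toLex (Sum.inl x0)) < f (toLex (Sum.inr y)) := hf (Sum.Lex.inl_lt_inr _ _)
      rw [hw0] at h1
      rcases h : ofLex (f (toLex (Sum.inr y))) with z | w
      · have h2 : f (toLex (Sum.inr y)) = toLex (Sum.inl z) := by rw [← h]; rfl
        rw [h2] at h1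
        exact absurd h1 Sum.Lex.not_inr_lt_inl
      · exact ⟨w, by rw [← h]; rfl⟩
    choose g hg using hy
    refine ⟨g, fun a b hab => ?_⟩
    have h1 : f (toLex (Sum.inr a)) < f (toLex (Sum.inr b)) := hf (Sum.Lex.inr_lt_inr_iff.2 hab)
    rw [hg, hg] at h1
    exact Sum.Lex.inr_lt_inr_iff.1 h1

end

section idem

variable {B : Type} [LinearOrder B]

/-- a chain `B` with `B + B ≤ B`, nonempty, has a dense subset whose intervals contain `B` -/
theorem exists_dense (hne : Nonempty B) (hB : Le (Lex (B ⊕ B)) B) :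
    ∃ M : Set B, (∃ x ∈ M, ∃ y ∈ M, x < y) ∧ (∀ x ∈ M, ∀ y ∈ M, x < y → ∃ z ∈ M, x < z ∧ z < y) ∧
      ∀ x ∈ M, ∀ y ∈ M, x < y → ∃ f : B → B, StrictMono f ∧ ∀ b, x < f b ∧ f b < y := by
  obtain ⟨b0⟩ := hne
  obtain ⟨e, he⟩ := hB
  set p : B → B := fun b => e (toLex (Sum.inl b)) with hp
  set q : B → B := fun b => e (toLex (Sum.inr b)) with hq
  have hpm : StrictMono p := fun a b h => he (Sum.Lex.inl_lt_inl_iff.2 h)
  have hqm : StrictMono q := fun a b h => he (Sum.Lex.inr_lt_inr_iff.2 h)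
  have hpq : ∀ a b, p a < q b := fun a b => he (Sum.Lex.inl_lt_inr _ _)
  -- a point in the middle
  have hmid : ∀ x y : B, (∃ f : B → B, StrictMono f ∧ ∀ b, x < f b ∧ f b < y) →
      ∃ m, x < m ∧ m < y ∧ (∃ f : B → B, StrictMono f ∧ ∀ b, x < f b ∧ f b < m) ∧
        ∃ f : B → B, StrictMono f ∧ ∀ b, m < f b ∧ f b < y := by
    rintro x y ⟨f, hf, hfxy⟩
    refine ⟨f (q (p b0)), (hfxy _).1, (hfxy _).2, ⟨f ∘ p, hf.comp hpm, fun b => ⟨(hfxy _).1, ?_⟩⟩,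
      ⟨f ∘ q ∘ q, hf.comp (hqm.comp hqm), fun b => ⟨?_, (hfxy _).2⟩⟩⟩
    · exact hf (hpq _ _)
    · exact hf (hqm (hpq _ _))
  set F : Set (Set B) := {M | ∀ x ∈ M, ∀ y ∈ M, x < y →
    ∃ f : B → B, StrictMono f ∧ ∀ b, x < f b ∧ f b < y} with hF
  have h0 : ({p b0, q (q b0)} : Set B) ∈ F := by
    rintro x (rfl | rfl) y (rfl | rfl) h
    · exact absurd h (lt_irrefl _)
    · refine ⟨q ∘ p, hqm.comp hpm, fun b => ⟨hpq _ _, hqm (hpq _ _)⟩⟩
    · exact absurd h (not_lt.2 (hpq _ _).le)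
    · exact absurd h (lt_irrefl _)
  obtain ⟨M, h0M, hM⟩ := zorn_subset_nonempty F (by
    intro c hc hch hne
    refine ⟨⋃₀ c, ?_, fun s hs => subset_sUnion_of_mem hs⟩
    rintro x ⟨s, hs, hxs⟩ y ⟨t, ht, hyt⟩ hxy
    rcases hch.total hs ht with h | h
    · exact hc ht x (h hxs) y hyt hxy
    · exact hc hs x hxs y (h hyt) hxy) _ h0
  have hMF : M ∈ F := hM.prop
  refine ⟨M, ⟨_, h0M (Or.inl rfl), _, h0M (Or.inr rfl), hpq _ _⟩, ?_, hMF⟩
  intro x hx y hy hxy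
  by_contra hcon
  push Not at hcon
  obtain ⟨m, hxm, hmy, ⟨f1, hf1, h1⟩, ⟨f2, hf2, h2⟩⟩ := hmid x y (hMF x hx y hy hxy)
  have hins : insert m M ∈ F := by
    rintro u (rfl | hu) v (rfl | hv) huv
    · exact absurd huv (lt_irrefl _)
    · have hv' : y ≤ v := hcon v hv (hxm.trans huv)
      exact ⟨f2, hf2, fun b => ⟨(h2 b).1, (h2 b).2.trans_le hv'⟩⟩
    · have hu' : u ≤ x := by
        by_contra h
        exact absurd (hcon u hu (not_le.1 h)) (not_le.2 (huv.trans hmy))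
      exact ⟨f1, hf1, fun b => ⟨hu'.trans_lt (h1 b).1, (h1 b).2⟩⟩
    · exact hMF u hu v hv huv
  have hmM : m ∈ M := hM.le_of_ge hins (subset_insert _ _) (mem_insert _ _)
  exact absurd (hcon m hmM hxm) (not_le.2 hmy)

/-- countable sums of chains below `B` are below `B` -/
theorem sum_le (hne : Nonempty B) (hB : Le (Lex (B ⊕ B)) B) (I : Type) [LinearOrder I]
    [Countable I] (X : I → Type) [∀ i, LinearOrder (X i)] (hX : ∀ i, Le (X i) B) :
    Le (Σₗ i, X i) B := by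
  obtain ⟨M, ⟨x0, hx0, y0, hy0, hxy0⟩, hdense, hbig⟩ := exists_dense hne hB
  have _ : DenselyOrdered M := by
    refine ⟨fun a b hab => ?_⟩
    obtain ⟨z, hz, h1, h2⟩ := hdense a a.2 b b.2 hab
    exact ⟨⟨z, hz⟩, h1, h2⟩
  have _ : Nontrivial M := ⟨⟨⟨x0, hx0⟩, ⟨y0, hy0⟩, fun h => hxy0.ne (congrArg Subtype.val h)⟩⟩
  have _ : Countable (I ×ₗ Bool) := inferInstanceAs (Countable (I × Bool))
  obtain ⟨e⟩ := Order.embedding_from_countable_to_dense (I ×ₗ Bool) M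
  have he : ∀ i, e (toLex (i, false)) < e (toLex (i, true)) := fun i =>
    e.strictMono (Prod.Lex.toLex_lt_toLex.2 (Or.inr ⟨rfl, Bool.false_lt_true⟩))
  have he' : ∀ i j, i < j → e (toLex (i, true)) < e (toLex (j, false)) := fun i j h =>
    e.strictMono (Prod.Lex.toLex_lt_toLex.2 (Or.inl h))
  choose f hf hfb using fun i => hbig _ (e (toLex (i, false))).2 _ (e (toLex (i, true))).2 (he i)
  choose g hg using hX
  refine ⟨fun s => f s.1 (g s.1 s.2), ?_⟩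
  rintro ⟨i, a⟩ ⟨j, b⟩ hab
  rcases Sigma.Lex.lt_def.1 hab with h | ⟨h, h'⟩
  · have h1 : i < j := h
    calc f i (g i a) < (e (toLex (i, true)) : M) := (hfb i _).2
      _ < (e (toLex (j, false)) : M) := he' i j h1
      _ < f j (g j b) := (hfb j _).1
  · have h1 : i = j := h
    subst h1
    exact hf i (hg i h')

theorem rat_le (hne : Nonempty B) (hB : Le (Lex (B ⊕ B)) B) : Le ℚ B := by
  obtain ⟨M, ⟨x0, hx0, y0, hy0, hxy0⟩, hdense, hbig⟩ := exists_dense hne hB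
  have _ : DenselyOrdered M := by
    refine ⟨fun a b hab => ?_⟩
    obtain ⟨z, hz, h1, h2⟩ := hdense a a.2 b b.2 hab
    exact ⟨⟨z, hz⟩, h1, h2⟩
  have _ : Nontrivial M := ⟨⟨⟨x0, hx0⟩, ⟨y0, hy0⟩, fun h => hxy0.ne (congrArg Subtype.val h)⟩⟩
  obtain ⟨e⟩ := Order.embedding_from_countable_to_dense ℚ M
  exact ⟨fun q => (e q : B), fun a b h => e.strictMono h⟩

end idem

end H611D
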